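import Mathlib

set_option autoImplicit false

namespace Pool.Agent.H.MP_5eed22_lc

open Set Filter Cardinal

/-- ideal independent family (the case `G = ∅` says that the members are infinite) -/
def Ind (F : Set (Set ℕ)) : Prop := ∀ A ∈ F, ∀ G ⊆ F \ {A}, G.Finite → (A \ ⋃₀ G).Infinite

abbrev I : Type := (aleph 1).ord.ToType

lemma cIio (a : I) : (Iio a).Countable := by
  have h : #(Iio a) < aleph 1 := by simpa using mk_Iio_lt a
  rw [← le_aleph0_iff_set_countable]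
  exact Order.lt_succ_iff.1 (h.trans_eq succ_aleph0.symm)

lemma cIic (a : I) : (Iic a).Countable := by
  rw [← Iio_insert]; exact (cIio a).insert a

lemma mkI : #I = aleph 1 := by simp [I]

lemma bddI {s : Set I} (hs : s.Countable) : ∃ b, ∀ a ∈ s, a < b := by
  by_contra! h
  have : (univ : Set I).Countable := (hs.biUnion fun a _ => cIic a).mono fun b _ => by
    obtain ⟨a, ha, hb⟩ := h b
    exact mem_biUnion ha hb
  rw [← le_aleph0_iff_set_countable, mk_univ, mkI] at this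
  exact this.not_gt aleph0_lt_aleph_one

lemma wrec {α : Type} (P : ∀ γ : I, ((β : I) → β < γ → α) → α → Prop) (h : ∀ γ r, ∃ a, P γ r a) :
    ∃ ρ : I → α, ∀ γ, P γ (fun β _ => ρ β) (ρ γ) := by
  choose F h using h
  exact ⟨wellFounded_lt.fix F, fun γ => by rw [WellFounded.fix_eq]; exact h γ _⟩

lemma pseudo {L : Filter ℕ} [L.NeBot] (l : L ≤ cofinite) {C : Set (Set ℕ)} (c : C.Countable) :
    ∃ f : ℕ → ℕ, StrictMono f ∧ ∀ X ∈ C, X ∈ L → ∀ᶠ n in atTop, f n ∈ X := by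
  have : (generate (C ∩ L.sets)).IsCountablyGenerated := ⟨_, c.mono inter_subset_left, rfl⟩
  have : (generate (C ∩ L.sets) ⊓ atTop).NeBot := neBot_of_le (f := L)
    (le_inf (le_generate_iff.2 inter_subset_right) (Nat.cofinite_eq_atTop ▸ l))
  obtain ⟨x, h⟩ := (generate (C ∩ L.sets) ⊓ atTop).exists_seq_tendsto
  obtain ⟨φ, a, b⟩ := strictMono_subseq_of_tendsto_atTop (tendsto_inf.1 h).2
  exact ⟨_, b, fun X i j => a.tendsto_atTop ((tendsto_inf.1 h).1 (mem_generate_of_mem ⟨i, j⟩))⟩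

lemma pseudo' {U : Ultrafilter ℕ} (l : (U : Filter ℕ) ≤ cofinite) {C : Set (Set ℕ)} (c : C.Countable) :
    ∃ f : ℕ → ℕ, StrictMono f ∧ range f ∉ U ∧ ∀ X ∈ C, X ∈ U → f ⁻¹' X ∈ cofinite := by
  obtain ⟨f, a, b⟩ := pseudo l c
  have k (r : ℕ) : StrictMono fun n => 2 * n + r := fun _ _ h => by simpa using h
  have m (r : ℕ) (X) (i : X ∈ C) (j : X ∈ U) : (f ∘ fun n => 2 * n + r) ⁻¹' X ∈ cofinite :=
    Nat.cofinite_eq_atTop ▸ (k r).tendsto_atTop (b X i j)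
  by_cases h : range (f ∘ fun n => 2 * n + 0) ∈ U
  · refine ⟨_, a.comp (k 1), fun i => ?_, m 1⟩
    obtain ⟨_, ⟨x, rfl⟩, y, e⟩ := U.nonempty_of_mem (inter_mem h i)
    have : 2 * y + 1 = 2 * x + 0 := a.injective e
    omega
  · exact ⟨_, a.comp (k 0), h, m 0⟩

lemma cof {U : Ultrafilter ℕ} (l : (U : Filter ℕ) ≤ cofinite) (b : I → Set ℕ) (hb : ∀ i, b i ∈ U)
    (hb' : ∀ X ∈ U, ∃ i, (b i \ X).Finite) (g : I → ℕ → ℕ) (hg : ∀ f : ℕ → ℕ, ∃ i, ∀ᶠ m in atTop, f m ≤ g i m)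
    (c : I → I → ℕ) (hc : ∀ i, InjOn (c i) (Iio i)) : ∃ H : I × I × ℕ → ℕ → Set ℕ, (∀ i n, H i n ∈ U) ∧
      ∀ W : ℕ → Set ℕ, (∀ n, W n ∈ U) → ∃ i, ∀ n, H i n ⊆ W n := by
  refine ⟨fun i n => Ici (g i.2.1 n + i.2.2) ∩ ⋂ ξ ∈ Iio i.1 ∩ c i.1 ⁻¹' Iic (g i.2.1 n + i.2.2), b ξ,
    fun i n => inter_mem (l (Nat.cofinite_eq_atTop ▸ Ici_mem_atTop _)) ((biInter_mem
      (Finite.of_injOn (fun _ h => h.2) ((hc _).mono inter_subset_left) (finite_Iic _))).2 fun ξ _ => hb ξ),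
    fun W h => ?_⟩
  choose ξ k using fun n => hb' _ (h n)
  choose m k using fun n => (k n).bddAbove
  obtain ⟨δ, d⟩ := bddI (countable_range ξ)
  obtain ⟨ζ, e⟩ := hg fun n => m n + 1 + c δ (ξ n)
  obtain ⟨N, e⟩ := eventually_atTop.1 e
  obtain ⟨M, f⟩ := ((finite_Iio N).image fun n => m n + 1 + c δ (ξ n)).bddAbove
  refine ⟨(δ, ζ, M), fun n x i => by_contra fun j => ?_⟩
  have : m n + 1 + c δ (ξ n) ≤ g ζ n + M := by
    rcases lt_or_ge n N with o | o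
    · exact le_add_left (f (mem_image_of_mem _ o))
    · exact le_add_right (e n o)
  have p : x ≤ m n := k n ⟨mem_iInter₂.1 i.2 _ ⟨d _ ⟨n, rfl⟩, le_of_add_le_right this⟩, j⟩
  have q : g ζ n + M ≤ x := i.1
  omega

lemma build {U : Ultrafilter ℕ} (l : (U : Filter ℕ) ≤ cofinite) (H : I × I × ℕ → ℕ → Set ℕ)
    (h1 : ∀ i n, H i n ∈ U) (h2 : ∀ W : ℕ → Set ℕ, (∀ n, W n ∈ U) → ∃ i, ∀ n, H i n ⊆ W n)
    (c : I → I → ℕ) (hc : ∀ i, InjOn (c i) (Iio i)) :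
    ∃ A : I → Set ℕ, A.Injective ∧ Maximal Ind (range A) := by
  obtain ⟨e⟩ : Nonempty (I ≃ I × I × ℕ) := Cardinal.eq.1 (by simp)
  obtain ⟨t⟩ : Nonempty (I ≃ I × (I × I × ℕ) × ℕ) := Cardinal.eq.1 (by simp)
  obtain ⟨ρ, h⟩ := wrec (fun γ (r : (β : I) → β < γ → Set ℕ × (ℕ → ℕ)) (a : Set ℕ × (ℕ → ℕ)) =>
      StrictMono a.2 ∧ range a.2 ∉ U ∧ (∀ β k, (r β k).1 ∉ U → (a.2 ⁻¹' (r β k).1).Finite) ∧
      (∀ ξ ≤ γ, a.2 ⁻¹' H (e ξ) 0 ∈ U) ∧ a.1 = range a.2 ∪ {x | x ∉ H (e (t γ).1) 0 ∧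
        ∀ β k, β < (t γ).1 → x ∉ (r β k).2 '' H (t γ).2.1 (c (t γ).1 β)}) fun γ r => by
    have := (cIio γ).to_subtype
    obtain ⟨f, a, b, d⟩ := pseudo' l ((countable_range fun β : Iio γ => (r β β.2).1ᶜ).union
      ((cIic γ).image fun ξ => H (e ξ) 0))
    refine ⟨(range f ∪ _, f), a, b, fun β k i => ?_, fun ξ k => l (d _ (.inr ⟨ξ, k, rfl⟩) (h1 _ _)), rfl⟩
    simpa using d _ (.inl ⟨⟨β, k⟩, rfl⟩) (Ultrafilter.compl_mem_iff_notMem.2 i)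
  simp only [forall_and] at h
  obtain ⟨r1, r2, r3, r4, r5⟩ := h
  obtain ⟨A, hA⟩ : ∃ A : I → Set ℕ, ∀ γ, (ρ γ).1 = A γ := ⟨_, fun _ => rfl⟩
  simp only [hA] at r3 r5
  let q γ := U.map (ρ γ).2
  have a0 (γ) : A γ ∉ U := fun k => by
    rw [r5, Ultrafilter.union_mem_iff] at k
    rcases k with k | k
    · exact r2 γ k
    · obtain ⟨x, i, j⟩ := U.nonempty_of_mem (inter_mem k (h1 (e (t γ).1) 0))
      exact i.1 j
  have a1 (γ) : A γ ∈ q γ := U.mem_map.2 (univ_mem' fun n => r5 γ ▸ Or.inl ⟨n, rfl⟩)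
  have fi {U : Ultrafilter ℕ} (l : (U : Filter ℕ) ≤ cofinite) {X : Set ℕ} (h : X ∈ U) : X.Infinite :=
    fun k => Ultrafilter.compl_mem_iff_notMem.1 (l k.compl_mem_cofinite) h
  have ql (γ) : (q γ : Filter ℕ) ≤ cofinite := (map_mono l).trans (r1 γ).injective.tendsto_cofinite
  have a2 (β γ) (k : β ≠ γ) : A γ ∉ q β := fun m => by
    rcases k.lt_or_gt with k | k
    swap
    · exact fi l m (r3 β γ k (a0 γ))
    rw [r5, Ultrafilter.union_mem_iff] at m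
    rcases m with m | m
    · exact fi (ql β) (inter_mem m (a1 β)) (image_preimage_eq_range_inter ▸ (r3 γ β k (a0 β)).image _)
    · rcases lt_or_ge β (t γ).1 with o | o
      · obtain ⟨x, i, j⟩ := U.nonempty_of_mem (inter_mem m (h1 (t γ).2.1 (c (t γ).1 β)))
        exact i.2 β k o ⟨x, j, rfl⟩
      · obtain ⟨x, i, j⟩ := U.nonempty_of_mem (inter_mem m (r4 β _ o))
        exact i.1 j
  have base {X : Set ℕ} (h : X ∈ U) : ∃ ξ, H (e ξ) 0 ⊆ X :=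
    let ⟨i, k⟩ := h2 (fun _ => X) fun _ => h; ⟨e.symm i, by simpa using k 0⟩
  have cov {X : Set ℕ} (h : X ∉ U) (k : ∀ γ, X ∉ q γ) (δ) : ∃ γ ≠ δ, X ⊆ A γ := by
    obtain ⟨ξ, i⟩ := base (Ultrafilter.compl_mem_iff_notMem.2 h)
    obtain ⟨η, j⟩ := h2 (fun n => ⋂ β ∈ Iio ξ ∩ c ξ ⁻¹' {n}, (ρ β).2 ⁻¹' Xᶜ) fun n => (biInter_mem
      (Finite.of_injOn (fun _ h => h.2) ((hc _).mono inter_subset_left) (finite_singleton _))).2
        fun β _ => Ultrafilter.compl_mem_iff_notMem.2 (k β)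
    have m (n : ℕ) : X ⊆ A (t.symm (ξ, η, n)) := fun x o => by
      rw [r5, t.apply_symm_apply]
      refine .inr ⟨fun p => i p o, ?_⟩
      rintro β - p ⟨y, s, rfl⟩
      exact mem_iInter₂.1 (j _ s) β ⟨p, rfl⟩ o
    by_cases o : t.symm (ξ, η, 0) = δ
    · exact ⟨_, fun p => by simpa using p.trans o.symm, m 1⟩
    · exact ⟨_, o, m 0⟩
  refine ⟨A, fun β γ k => by_contra fun m => a2 β γ m (k ▸ a1 β), ?_, fun J hJ s Y y => ?_⟩
  · rintro _ ⟨γ, rfl⟩ G i j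
    refine fi (ql γ) (inter_mem (a1 γ) (?_ : (⋃₀ G)ᶜ ∈ _))
    rw [compl_sUnion, sInter_image]
    refine (biInter_mem j).2 fun X k => ?_
    obtain ⟨⟨β, rfl⟩, m⟩ := i k
    exact Ultrafilter.compl_mem_iff_notMem.2 (a2 γ β fun o => m (o ▸ rfl))
  by_contra n
  have inj (β γ) (k : A β = A γ) : β = γ := by_contra fun m => a2 β γ m (k ▸ a1 β)
  have k (δ) : Y ∉ q δ := fun m => by
    obtain ⟨γ, i, j⟩ := cov (X := A δ \ Y) (fun o => a0 δ (mem_of_superset o sdiff_subset)) (fun γ o => by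
      by_cases p : γ = δ
      · obtain ⟨x, u, v⟩ := (q γ).nonempty_of_mem (inter_mem o (p ▸ m))
        exact u.2 v
      · exact a2 γ δ p (mem_of_superset o sdiff_subset)) δ
    refine hJ _ (s ⟨δ, rfl⟩) {Y, A γ} ?_ (toFinite _) (finite_empty.subset fun x o => ?_)
    · rintro _ (rfl | rfl)
      exacts [⟨y, fun o => n ⟨δ, o.symm⟩⟩, ⟨s ⟨γ, rfl⟩, fun o => i (inj _ _ o)⟩]
    · rw [sUnion_pair] at o
      exact o.2 (.inr (j ⟨o.1, fun p => o.2 (.inl p)⟩))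
  obtain ⟨γ, -, j⟩ := cov (fun m => let ⟨ξ, i⟩ := base m
    k ξ (mem_of_superset (r4 ξ ξ le_rfl) (preimage_mono i))) k (bddI countable_empty).choose
  refine hJ _ y {A γ} ?_ (toFinite _) (by simp [sdiff_eq_empty.2 j])
  rintro _ rfl
  exact ⟨s ⟨γ, rfl⟩, fun o => n ⟨γ, o⟩⟩

lemma unc {F : Set (Set ℕ)} (h : Maximal Ind F) (i : F.Infinite) : ¬ F.Countable := fun c => by
  have k (G) (a : G ⊆ F) (b : G.Finite) : (⋃₀ G)ᶜ.Infinite := by
    obtain ⟨A, d, e⟩ := i.exists_notMem_finite b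
    exact (h.1 A d G (fun X m => ⟨a m, fun o => e (o ▸ m)⟩) b).mono fun _ => And.right
  have : (generate (compl '' F) ⊓ cofinite).NeBot := by
    rw [inf_neBot_iff]
    intro s a t b
    obtain ⟨G, d, e, f⟩ := mem_generate_iff.1 a
    obtain ⟨G, g, rfl⟩ := subset_image_iff.1 d
    rw [← compl_sUnion] at f
    exact ((k G g (e.of_finite_image compl_injective.injOn)).sdiff b).nonempty.mono
      fun x o => ⟨f o.1, not_not.1 o.2⟩
  obtain ⟨f, a, b⟩ := pseudo (inf_le_right (a := generate (compl '' F))) (c.image compl)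
  have d (X) (m : X ∈ F) : (range f ∩ X).Finite := by
    have := b _ (mem_image_of_mem _ m) (mem_inf_of_left (mem_generate_of_mem (mem_image_of_mem _ m)))
    rw [← Nat.cofinite_eq_atTop, eventually_cofinite] at this
    exact image_preimage_eq_range_inter ▸ Finite.image _ (by simpa [preimage] using this)
  have e := infinite_range_of_injective a.injective
  refine e (inter_self (range f) ▸ d _ (h.2 (y := insert (range f) F) ?_ (subset_insert _ _)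
    (mem_insert _ _)))
  rintro A (rfl | m) G o p
  · refine (e.sdiff (p.biUnion fun X q => d X ((o q).1.resolve_left (o q).2))).mono fun x u =>
      ⟨u.1, fun ⟨X, v, w⟩ => u.2 (mem_biUnion v ⟨u.1, w⟩)⟩
  · refine ((h.1 A m (G \ {range f}) (fun X q => ⟨(o q.1).1.resolve_left q.2, (o q.1).2⟩)
      p.sdiff).sdiff (d A m)).mono fun x u => ⟨u.1.1, fun ⟨X, v, w⟩ =>
        u.1.2 ⟨X, ⟨v, fun z => u.2 ⟨z ▸ w, u.1.1⟩⟩, w⟩⟩

theorem main (D : Set (ℕ → ℕ)) (hD : ∀ f : ℕ → ℕ, ∃ g ∈ D, ∀ᶠ m in atTop, f m ≤ g m) (d : #D = aleph 1)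
    (U : Ultrafilter ℕ) (l : (U : Filter ℕ) ≤ cofinite) (B : Set (Set ℕ)) (hB : ∀ X ∈ B, X ∈ U)
    (hB' : ∀ X ∈ U, ∃ Y ∈ B, (Y \ X).Finite) (b : #B = aleph 1) :
    IsLeast {κ | ∃ F, Maximal Ind F ∧ F.Infinite ∧ #F = κ} (aleph 1) := by
  obtain ⟨e⟩ : Nonempty (I ≃ D) := Cardinal.eq.1 (mkI.trans d.symm)
  obtain ⟨e'⟩ : Nonempty (I ≃ B) := Cardinal.eq.1 (mkI.trans b.symm)
  choose c hc using fun i : I => countable_iff_exists_injOn.1 (cIio i)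
  obtain ⟨H, h1, h2⟩ := cof l (fun i => e' i) (fun i => hB _ (e' i).2)
    (fun X i => let ⟨Y, j, k⟩ := hB' X i; ⟨e'.symm ⟨Y, j⟩, by simpa using k⟩) (fun i => e i)
    (fun f => let ⟨g, j, k⟩ := hD f; ⟨e.symm ⟨g, j⟩, by simpa using k⟩) c hc
  obtain ⟨A, i, j⟩ := build l H h1 h2 c hc
  have k : #(range A) = aleph 1 := (mk_range_eq A i).trans mkI
  refine ⟨⟨_, j, infinite_coe_iff.1 (infinite_iff.2 (k ▸ aleph0_le_aleph 1)), k⟩, ?_⟩
  rintro _ ⟨F, a, b, rfl⟩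
  exact not_lt.1 fun m => unc a b ((countable_iff_lt_aleph_one F).2 m)

end Pool.Agent.H.MP_5eed22_lc
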